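import Pool.Agent.helper44.MDG.Spec

set_option autoImplicit false

namespace Pool.Agent.helper44.MDG

private lemma EXC_inv_own {V : Type} [DecidableEq V] {G : SimpleGraph V} {c : V → Bool} {q m : Bool} {S : Finset V}
    (h : Wins G c q m S) (hm : m = q) :
    (∀ v, c v = q → ¬ Playable G S v) ∨ ∃ v, c v = q ∧ Playable G S v ∧ Wins G c q (!q) (insert v S) := by
  cases h with
  | done _ h1 => exact Or.inl h1
  | own _ v h1 h2 h3 => exact Or.inr ⟨v, h1, h2, h3⟩
  | opp _ h1 h2 =>
    exfalso
    revert hm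
    cases q <;> simp

private lemma EXC_inv_opp {V : Type} [DecidableEq V] {G : SimpleGraph V} {c : V → Bool} {q m : Bool} {S : Finset V}
    (h : Wins G c q m S) (hm : m = !q) :
    (∃ v, c v = !q ∧ Playable G S v) ∧ ∀ v, c v = !q → Playable G S v → Wins G c q q (insert v S) := by
  cases h with
  | done _ h1 =>
    exfalso
    revert hm
    cases q <;> simp
  | own _ v h1 h2 h3 =>
    exfalso
    revert hm
    cases q <;> simp
  | opp _ h1 h2 => exact ⟨h1, h2⟩

theorem EXC : EXC_stmt := by
  intro V _ G c p m S h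
  induction h with
  | done S hS =>
    intro h2
    obtain ⟨⟨v, hv, hpl⟩, -⟩ := EXC_inv_opp h2 (Bool.not_not p).symm
    rw [Bool.not_not] at hv
    exact hS v hv hpl
  | own S v hv hpl _ ih =>
    intro h2
    obtain ⟨-, hall⟩ := EXC_inv_opp h2 (Bool.not_not p).symm
    exact ih (hall v (by rw [Bool.not_not]; exact hv) hpl)
  | opp S hex hall ih =>
    intro h2
    rcases EXC_inv_own h2 rfl with h3 | ⟨v, hv, hpl, h4⟩
    · obtain ⟨v, hv, hpl⟩ := hex
      exact h3 v hv hpl
    · rw [Bool.not_not] at h4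
      exact ih v hv hpl h4

end Pool.Agent.helper44.MDG
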