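import Pool.Agent.helper44.MDG.Spec

set_option autoImplicit false

namespace Pool.Agent.helper44.MDG

private lemma BRG_play {V : Type} [DecidableEq V] {G : SimpleGraph V} {N : V → Finset V}
    (hN : ∀ v u, u ∈ N v ↔ (u = v ∨ G.Adj v u)) {U S : Finset V} (hU : ∀ u, u ∈ U ↔ ¬ Dom G S u) (v : V) :
    Playable G S v ↔ ¬ Disjoint (N v) U := by
  rw [Finset.not_disjoint_iff]
  constructor
  · rintro ⟨-, u, hu, hd⟩
    exact ⟨u, (hN v u).2 hu, (hU u).2 hd⟩
  · rintro ⟨u, hu, hd⟩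
    have hu' := (hN v u).1 hu
    have hd' := (hU u).1 hd
    refine ⟨?_, u, hu', hd'⟩
    intro hv
    apply hd'
    rcases hu' with h | h
    · rw [h]
      exact Or.inl hv
    · exact Or.inr ⟨v, hv, h.symm⟩

private lemma BRG_step {V : Type} [DecidableEq V] {G : SimpleGraph V} {N : V → Finset V}
    (hN : ∀ v u, u ∈ N v ↔ (u = v ∨ G.Adj v u)) {U S : Finset V} (hU : ∀ u, u ∈ U ↔ ¬ Dom G S u) (v : V) :
    ∀ u, u ∈ U \ N v ↔ ¬ Dom G (insert v S) u := by
  intro u
  rw [Finset.mem_sdiff, hU u, hN v u]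
  unfold Dom
  constructor
  · rintro ⟨h1, h2⟩ h3
    rcases h3 with h3 | ⟨w, hw, h4⟩
    · rcases Finset.mem_insert.1 h3 with h5 | h5
      · exact h2 (Or.inl h5)
      · exact h1 (Or.inl h5)
    · rcases Finset.mem_insert.1 hw with h5 | h5
      · rw [h5] at h4
        exact h2 (Or.inr h4.symm)
      · exact h1 (Or.inr ⟨w, h5, h4⟩)
  · intro h
    refine ⟨?_, ?_⟩
    · rintro (h1 | ⟨w, hw, h1⟩)
      · exact h (Or.inl (Finset.mem_insert_of_mem h1))
      · exact h (Or.inr ⟨w, Finset.mem_insert_of_mem hw, h1⟩)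
    · rintro (h1 | h1)
      · exact h (Or.inl (Finset.mem_insert.2 (Or.inl h1)))
      · exact h (Or.inr ⟨v, Finset.mem_insert_self _ _, h1.symm⟩)

private lemma BRG_gen {V : Type} [DecidableEq V] {G : SimpleGraph V} {N : V → Finset V} {c : V → Bool} {p m : Bool}
    (hN : ∀ v u, u ∈ N v ↔ (u = v ∨ G.Adj v u)) {U : Finset V} (h : WU N c p m U) :
    ∀ S : Finset V, (∀ u, u ∈ U ↔ ¬ Dom G S u) → Wins G c p m S := by
  induction h with
  | done U h1 =>
    intro S hU
    exact Wins.done S fun v hv hp => ((BRG_play hN hU v).1 hp) (h1 v hv)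
  | own U v hv hd _ ih =>
    intro S hU
    exact Wins.own S v hv ((BRG_play hN hU v).2 hd) (ih (insert v S) (BRG_step hN hU v))
  | opp U hex _ ih =>
    intro S hU
    obtain ⟨v, hv, hd⟩ := hex
    exact Wins.opp S ⟨v, hv, (BRG_play hN hU v).2 hd⟩
      fun w hw hp => ih w hw ((BRG_play hN hU w).1 hp) (insert w S) (BRG_step hN hU w)

theorem BRG : BRG_stmt := by
  intro V _ _ G N c p m hN h
  refine BRG_gen hN h ∅ fun u => ?_
  simp [Dom]

end Pool.Agent.helper44.MDG
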